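import Mathlib
import Pool.Agent.Lib_caf75b.GroupTheory

set_option autoImplicit false

namespace Pool.Agent.Results.MP_caf75b_al.NoInfiniteTower

open Subgroup hiding commutator_def
open scoped commutatorElement
open Pool.Agent.Lib_caf75b

/-! ### Quandles -/

universe u

/-- A quandle structure on the type `X`; `op a b` is the product `a * b` of the problem. -/
structure QuandleOn (X : Type u) where
  op : X → X → X
  idem : ∀ a, op a a = a
  existsUnique : ∀ b c, ∃! a, op a b = c
  distrib : ∀ a b c, op (op a b) c = op (op a c) (op b c)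

namespace QuandleOn

variable {X Y A : Type u}

theorem bijective (Q : QuandleOn X) (a : X) : Function.Bijective (fun x => Q.op x a) := by
  constructor
  · intro x y h
    exact (Q.existsUnique a (Q.op y a)).unique h rfl
  · intro y
    exact (Q.existsUnique a y).exists

/-- The right translation `x ↦ x * a`. -/
noncomputable def R (Q : QuandleOn X) (a : X) : Equiv.Perm X :=
  Equiv.ofBijective (fun x => Q.op x a) (Q.bijective a)

/-- The inner automorphism group, generated by all right translations. -/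
def Inn (Q : QuandleOn X) : Subgroup (Equiv.Perm X) := Subgroup.closure (Set.range Q.R)

/-- A quandle is connected if it is nonempty and its inner automorphism group is transitive. -/
def IsConnected (Q : QuandleOn X) : Prop :=
  Nonempty X ∧ ∀ x y : X, ∃ g ∈ Q.Inn, g x = y

/-- Quandle 2-cocycles with values in `A`. -/
def IsCocycle [AddCommGroup A] (Q : QuandleOn X) (φ : X → X → A) : Prop :=
  (∀ x y z, φ x y - φ x z + φ (Q.op x y) z - φ (Q.op x z) (Q.op y z) = 0) ∧ ∀ x, φ x x = 0

/-- The abelian extension `E(Q, A, φ)`. -/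
def extension [AddCommGroup A] (Q : QuandleOn X) (φ : X → X → A) (h : Q.IsCocycle φ) :
    QuandleOn (X × A) where
  op p q := (Q.op p.1 q.1, p.2 + φ p.1 q.1)
  idem p := by rw [Q.idem, h.2, add_zero]
  existsUnique := by
    rintro ⟨y, b⟩ ⟨z, c⟩
    obtain ⟨x, hx, hu⟩ := Q.existsUnique y z
    refine ⟨(x, c - φ x y), ?_, ?_⟩
    · simp [hx]
    · rintro ⟨x', a'⟩ hxa
      rw [Prod.mk.injEq] at hxa
      obtain ⟨h1, h2⟩ := hxa
      have h3 : x' = x := hu x' h1
      subst h3
      simp only at h2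
      rw [← h2]
      simp
  distrib := by
    rintro ⟨x, a⟩ ⟨y, b⟩ ⟨z, c⟩
    have h1 := h.1 x y z
    refine Prod.ext (Q.distrib x y z) ?_
    show a + φ x y + φ (Q.op x y) z = a + φ x z + φ (Q.op x z) (Q.op y z)
    have h2 : φ x y + φ (Q.op x y) z = φ x z + φ (Q.op x z) (Q.op y z) := by
      rw [← sub_eq_zero, ← h1]
      abel
    rw [add_assoc, h2, ← add_assoc]

/-- Isomorphism of quandles. -/
def IsIso (P : QuandleOn Y) (Q : QuandleOn X) : Prop :=
  ∃ e : Y ≃ X, ∀ y z, e (P.op y z) = Q.op (e y) (e z)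

/-- `P` is isomorphic to an abelian extension of `Q` by some nontrivial abelian group. -/
def IsAbelianExtensionOf (P : QuandleOn Y) (Q : QuandleOn X) : Prop :=
  ∃ (A : Type u) (_ : AddCommGroup A) (_ : Nontrivial A) (φ : X → X → A) (h : Q.IsCocycle φ),
    P.IsIso (Q.extension φ h)

/-- Coverings of quandles. -/
def IsCovering (P : QuandleOn Y) (Q : QuandleOn X) (p : Y → X) : Prop :=
  Function.Surjective p ∧ (∀ y z, p (P.op y z) = Q.op (p y) (p z)) ∧
    ∀ y z, p y = p z → P.R y = P.R z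

theorem IsAbelianExtensionOf.covering {P : QuandleOn Y} {Q : QuandleOn X}
    (h : P.IsAbelianExtensionOf Q) : ∃ p : Y → X, IsCovering P Q p := by
  obtain ⟨A, _, _, φ, hφ, e, he⟩ := h
  refine ⟨fun y => (e y).1, ?_, ?_, ?_⟩
  · intro x
    refine ⟨e.symm (x, 0), ?_⟩
    simp
  · intro y z
    show (e (P.op y z)).1 = _
    rw [he]
    rfl
  · intro y z hyz
    ext w
    show P.op w y = P.op w z
    apply e.injective
    rw [he, he]
    show (Q.op (e w).1 (e y).1, (e w).2 + φ (e w).1 (e y).1) =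
      (Q.op (e w).1 (e z).1, (e w).2 + φ (e w).1 (e z).1)
    simp only at hyz
    rw [hyz]

theorem IsAbelianExtensionOf.card {P : QuandleOn Y} {Q : QuandleOn X} [Finite Y]
    (h : P.IsAbelianExtensionOf Q) : 2 * Nat.card X ≤ Nat.card Y := by
  obtain ⟨A, _, _, φ, hφ, e, he⟩ := h
  have h1 : Nat.card Y = Nat.card X * Nat.card A := by
    rw [Nat.card_congr e, Nat.card_prod]
  rw [h1, mul_comm]
  rcases isEmpty_or_nonempty X with hX | hX
  · simp
  · have : Finite (X × A) := Finite.of_equiv _ e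
    have : Finite A := Finite.of_surjective (Prod.snd : X × A → A) Prod.snd_surjective
    apply Nat.mul_le_mul_left
    exact Finite.one_lt_card

theorem R_apply (Q : QuandleOn X) (a x : X) : Q.R a x = Q.op x a := rfl

theorem R_mem (Q : QuandleOn X) (a : X) : Q.R a ∈ Q.Inn := Subgroup.subset_closure ⟨a, rfl⟩

theorem Inn_aut (Q : QuandleOn X) : ∀ g ∈ Q.Inn, ∀ x y, g (Q.op x y) = Q.op (g x) (g y) := by
  intro g hg
  induction hg using Subgroup.closure_induction with
  | mem g hg =>
    obtain ⟨a, rfl⟩ := hg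
    intro x y
    exact Q.distrib x y a
  | one => intro x y; rfl
  | mul g h _ _ ihg ihh =>
    intro x y
    rw [Equiv.Perm.mul_apply, ihh, ihg]
    rfl
  | inv g _ ih =>
    intro x y
    rw [Equiv.Perm.inv_eq_iff_eq, ih]
    simp

theorem conj_R (Q : QuandleOn X) (g : Equiv.Perm X) (hg : g ∈ Q.Inn) (x : X) :
    g * Q.R x * g⁻¹ = Q.R (g x) := by
  ext y
  show g (Q.op (g⁻¹ y) x) = Q.op y (g x)
  rw [Q.Inn_aut g hg]
  simp

theorem exists_lift {P : QuandleOn Y} {Q : QuandleOn X} {p : Y → X} (hp : IsCovering P Q p) :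
    ∀ g ∈ P.Inn, ∃ h ∈ Q.Inn, ∀ y, p (g y) = h (p y) := by
  intro g hg
  induction hg using Subgroup.closure_induction with
  | mem g hg =>
    obtain ⟨a, rfl⟩ := hg
    exact ⟨Q.R (p a), Q.R_mem _, fun y => hp.2.1 y a⟩
  | one => exact ⟨1, one_mem _, fun y => rfl⟩
  | mul g h _ _ ihg ihh =>
    obtain ⟨g', hg', eg⟩ := ihg
    obtain ⟨h', hh', eh⟩ := ihh
    refine ⟨g' * h', mul_mem hg' hh', fun y => ?_⟩
    rw [Equiv.Perm.mul_apply, Equiv.Perm.mul_apply, eg, eh]
  | inv g _ ih =>
    obtain ⟨g', hg', eg⟩ := ih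
    refine ⟨g'⁻¹, inv_mem hg', fun y => ?_⟩
    rw [Equiv.Perm.eq_inv_iff_eq, ← eg]
    simp

theorem exists_lift' {P : QuandleOn Y} {Q : QuandleOn X} {p : Y → X} (hp : IsCovering P Q p) :
    ∀ h ∈ Q.Inn, ∃ g ∈ P.Inn, ∀ y, p (g y) = h (p y) := by
  intro h hh
  induction hh using Subgroup.closure_induction with
  | mem h hh =>
    obtain ⟨a, rfl⟩ := hh
    obtain ⟨b, rfl⟩ := hp.1 a
    exact ⟨P.R b, P.R_mem _, fun y => hp.2.1 y b⟩
  | one => exact ⟨1, one_mem _, fun y => rfl⟩
  | mul g h _ _ ihg ihh =>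
    obtain ⟨g', hg', eg⟩ := ihg
    obtain ⟨h', hh', eh⟩ := ihh
    refine ⟨g' * h', mul_mem hg' hh', fun y => ?_⟩
    rw [Equiv.Perm.mul_apply, Equiv.Perm.mul_apply, eg, eh]
  | inv g _ ih =>
    obtain ⟨g', hg', eg⟩ := ih
    refine ⟨g'⁻¹, inv_mem hg', fun y => ?_⟩
    rw [Equiv.Perm.eq_inv_iff_eq, ← eg]
    simp

/-- A covering induces a central extension of inner automorphism groups. -/
theorem exists_hom {P : QuandleOn Y} {Q : QuandleOn X} {p : Y → X} (hp : IsCovering P Q p) :
    ∃ f : P.Inn →* Q.Inn, Function.Surjective f ∧ f.ker ≤ center P.Inn := by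
  choose F hF1 hF2 using fun g : P.Inn => exists_lift hp g g.2
  have huniq : ∀ h h' : Equiv.Perm X, (∀ y, h (p y) = h' (p y)) → h = h' := by
    intro h h' H
    ext x
    obtain ⟨y, rfl⟩ := hp.1 x
    exact H y
  let f : P.Inn →* Q.Inn := MonoidHom.mk' (fun g => ⟨F g, hF1 g⟩) (by
    intro g h
    apply Subtype.ext
    apply huniq
    intro y
    show F (g * h) (p y) = F g (F h (p y))
    rw [← hF2, ← hF2, ← hF2]
    rfl)
  have hf : ∀ (g : P.Inn) (y : Y), ((f g : Q.Inn) : Equiv.Perm X) (p y) = p ((g : Equiv.Perm Y) y) :=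
    fun g y => (hF2 g y).symm
  refine ⟨f, ?_, ?_⟩
  · intro h
    obtain ⟨g, hg, e⟩ := exists_lift' hp h h.2
    refine ⟨⟨g, hg⟩, ?_⟩
    apply Subtype.ext
    apply huniq
    intro y
    rw [hf]
    exact e y
  · intro g hg
    rw [MonoidHom.mem_ker] at hg
    have h1 : ∀ y, p ((g : Equiv.Perm Y) y) = p y := by
      intro y
      rw [← hf g y, hg]
      rfl
    have h2 : ∀ h ∈ P.Inn, h * (g : Equiv.Perm Y) = g * h := by
      intro h hh
      induction hh using Subgroup.closure_induction with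
      | mem h hh =>
        obtain ⟨a, rfl⟩ := hh
        have h3 := P.conj_R g g.2 a
        rw [hp.2.2 _ _ (h1 a)] at h3
        rw [mul_inv_eq_iff_eq_mul] at h3
        exact h3.symm
      | one => simp
      | mul a b _ _ iha ihb => rw [mul_assoc, ihb, ← mul_assoc, iha, mul_assoc]
      | inv a _ ih =>
        rw [inv_mul_eq_iff_eq_mul, ← mul_assoc, ih, mul_assoc, mul_inv_cancel, mul_one]
    rw [mem_center_iff]
    intro h
    exact Subtype.ext (h2 h h.2)

/-- `R_q` as an element of the inner automorphism group. -/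
noncomputable def RI (Q : QuandleOn X) (q : X) : Q.Inn := ⟨Q.R q, Q.R_mem q⟩

theorem normalClosure_RI (Q : QuandleOn X) (hQ : Q.IsConnected) (q : X) :
    normalClosure ({Q.RI q} : Set Q.Inn) = ⊤ := by
  have h1 : Q.Inn ≤ (normalClosure ({Q.RI q} : Set Q.Inn)).map Q.Inn.subtype := by
    have h2 : Subgroup.closure (Set.range Q.R) ≤
        (normalClosure ({Q.RI q} : Set Q.Inn)).map Q.Inn.subtype := by
      rw [closure_le]
      rintro _ ⟨x, rfl⟩
      obtain ⟨g, hg, rfl⟩ := hQ.2 q x
      refine ⟨⟨g, hg⟩ * Q.RI q * ⟨g, hg⟩⁻¹, ?_, ?_⟩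
      · exact normalClosure_normal.conj_mem _ (subset_normalClosure (Set.mem_singleton _)) _
      · exact Q.conj_R g hg q
    exact h2
  rw [eq_top_iff]
  intro g _
  obtain ⟨h, hh, e⟩ := h1 g.2
  have : h = g := Subtype.ext e
  rwa [← this]

/-- The commutator subgroup of the inner automorphism group of a connected quandle is transitive. -/
theorem card_le (Q : QuandleOn X) [Finite X] (hQ : Q.IsConnected) :
    Nat.card X ≤ Nat.card (_root_.commutator Q.Inn) := by
  obtain ⟨q⟩ := hQ.1
  let S : Subgroup Q.Inn :=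
    { carrier := {g | (g : Equiv.Perm X) q = q}
      one_mem' := rfl
      mul_mem' := by
        intro a b ha hb
        show (a : Equiv.Perm X) ((b : Equiv.Perm X) q) = q
        rw [Set.mem_ofPred_eq] at ha hb
        rw [hb, ha]
      inv_mem' := by
        intro a ha
        show (a : Equiv.Perm X)⁻¹ q = q
        rw [Equiv.Perm.inv_eq_iff_eq]
        exact ha.symm }
  have hS : ∀ g : Q.Inn, g ∈ S ↔ (g : Equiv.Perm X) q = q := fun g => Iff.rfl
  have hn : (_root_.commutator Q.Inn ⊔ S).Normal := by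
    constructor
    intro n hn g
    have h1 : g * n * g⁻¹ = ⁅g, n⁆ * n := by rw [commutatorElement_def]; group
    rw [h1]
    exact mul_mem (mem_sup_left (mem_comm g n)) hn
  have htop : _root_.commutator Q.Inn ⊔ S = ⊤ := by
    rw [eq_top_iff, ← Q.normalClosure_RI hQ q]
    apply normalClosure_le_normal
    rw [Set.singleton_subset_iff]
    apply mem_sup_right
    rw [hS]
    exact Q.idem q
  have hsurj : Function.Surjective
      (fun d : _root_.commutator Q.Inn => ((d : Q.Inn) : Equiv.Perm X) q) := by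
    intro x
    obtain ⟨g, hg, rfl⟩ := hQ.2 q x
    have h1 : (⟨g, hg⟩ : Q.Inn) ∈ _root_.commutator Q.Inn ⊔ S := by
      rw [htop]; exact mem_top _
    rw [mem_sup_of_normal_left] at h1
    obtain ⟨d, hd, s, hs, e⟩ := h1
    refine ⟨⟨d, hd⟩, ?_⟩
    have h2 : g = (d : Equiv.Perm X) * (s : Equiv.Perm X) := (congrArg Subtype.val e).symm
    show (d : Equiv.Perm X) q = g q
    rw [h2, Equiv.Perm.mul_apply, (hS s).mp hs]
  exact Nat.card_le_card_of_surjective _ hsurj

theorem mem_upper_of_map {G H : Type*} [Group G] [Group H] (f : G →* H) (hf : f.ker ≤ center G)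
    (n : ℕ) : ∀ x : G, f x ∈ Subgroup.upperCentralSeries H n →
      x ∈ Subgroup.upperCentralSeries G (n + 1) := by
  induction n with
  | zero =>
    intro x hx
    rw [zero_add, Subgroup.upperCentralSeries_one]
    exact hf hx
  | succ n ih =>
    intro x hx
    rw [Subgroup.mem_upperCentralSeries_succ_iff]
    intro y
    apply ih
    rw [map_commutatorElement]
    exact Subgroup.mem_upperCentralSeries_succ_iff.mp hx _

end QuandleOn

open QuandleOn

theorem exists_chain (k : ℕ) (X : ℕ → Type u) (Q : ∀ n, QuandleOn (X n))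
    (h : ∀ n < k, (Q (n + 1)).IsAbelianExtensionOf (Q n)) :
    ∀ n ≤ k, ∃ f : (Q n).Inn →* (Q 0).Inn, Function.Surjective f ∧
      f.ker ≤ Subgroup.upperCentralSeries (Q n).Inn n := by
  intro n
  induction n with
  | zero =>
    intro _
    refine ⟨MonoidHom.id _, Function.surjective_id, ?_⟩
    intro x hx
    rw [MonoidHom.mem_ker] at hx
    have : x = 1 := hx
    rw [this]
    exact one_mem _
  | succ n ih =>
    intro hn
    obtain ⟨f, hf1, hf2⟩ := ih (by omega)
    obtain ⟨p, hp⟩ := (h n (by omega)).covering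
    obtain ⟨g, hg1, hg2⟩ := exists_hom hp
    refine ⟨f.comp g, hf1.comp hg1, ?_⟩
    intro x hx
    apply mem_upper_of_map g hg2
    exact hf2 hx

open scoped Nat in
theorem card_bound (k : ℕ) (X : ℕ → Type u) (Q : ∀ n, QuandleOn (X n))
    (hc : ∀ n ≤ k, Finite (X n) ∧ (Q n).IsConnected)
    (h : ∀ n < k, (Q (n + 1)).IsAbelianExtensionOf (Q n)) :
    Nat.card (X k) ≤ (Nat.card (X 0))! ^ ((Nat.card (X 0))! ^ 3 + 2) := by
  have hk := hc k le_rfl
  have h0 := hc 0 (Nat.zero_le k)
  have := hk.1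
  have := h0.1
  obtain ⟨q⟩ := hk.2.1
  obtain ⟨f, hf1, hf2⟩ := exists_chain k X Q h k le_rfl
  have h1 := card_commutator_le ((Q k).RI q) ((Q k).normalClosure_RI hk.2 q) k f.ker hf2
  have h2 : f.ker.index ≤ (Nat.card (X 0))! := by
    rw [Subgroup.index_ker]
    calc Nat.card f.range ≤ Nat.card (Q 0).Inn := Subgroup.card_le_card_group _
      _ ≤ Nat.card (Equiv.Perm (X 0)) := Subgroup.card_le_card_group _
      _ = (Nat.card (X 0))! := Nat.card_perm
  have h3 : 1 ≤ f.ker.index := Nat.one_le_iff_ne_zero.mpr FiniteIndex.index_ne_zero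
  calc Nat.card (X k) ≤ Nat.card (_root_.commutator (Q k).Inn) := (Q k).card_le hk.2
    _ ≤ f.ker.index ^ (f.ker.index ^ 3 + 2) := h1
    _ ≤ (Nat.card (X 0))! ^ (f.ker.index ^ 3 + 2) := Nat.pow_le_pow_left h2 _
    _ ≤ (Nat.card (X 0))! ^ ((Nat.card (X 0))! ^ 3 + 2) := by
        apply Nat.pow_le_pow_right (Nat.factorial_pos _)
        have := Nat.pow_le_pow_left h2 3
        omega

theorem pow_card (k : ℕ) (X : ℕ → Type u) (Q : ∀ n, QuandleOn (X n))
    (hc : ∀ n ≤ k, Finite (X n) ∧ (Q n).IsConnected)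
    (h : ∀ n < k, (Q (n + 1)).IsAbelianExtensionOf (Q n)) :
    ∀ n ≤ k, 2 ^ n * Nat.card (X 0) ≤ Nat.card (X n) := by
  intro n
  induction n with
  | zero => intro _; simp
  | succ n ih =>
    intro hn
    have h1 := ih (by omega)
    have := (hc (n + 1) hn).1
    have h2 := (h n (by omega)).card
    calc 2 ^ (n + 1) * Nat.card (X 0) = 2 * (2 ^ n * Nat.card (X 0)) := by ring
      _ ≤ 2 * Nat.card (X n) := Nat.mul_le_mul_left _ h1
      _ ≤ _ := h2

open scoped Nat in
/-- There is no infinite tower of abelian extensions of finite connected quandles; more precisely,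
if `Q_k → ... → Q_1 → Q_0` is a finite tower of nontrivial abelian extensions of finite connected
quandles and `m` is the order of `Q_0`, then
`2 ^ k * m ≤ |Q_k| ≤ (m!) ^ ((m!) ^ 3 + 2)`; in particular the length of the tower is bounded in
terms of `m` only. -/
theorem result :
    (¬ ∃ (X : ℕ → Type u) (Q : ∀ n, QuandleOn (X n)),
      (∀ n, Finite (X n) ∧ (Q n).IsConnected) ∧
        ∀ n, (Q (n + 1)).IsAbelianExtensionOf (Q n)) ∧
    (∀ (k : ℕ) (X : ℕ → Type u) (Q : ∀ n, QuandleOn (X n)),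
      (∀ n ≤ k, Finite (X n) ∧ (Q n).IsConnected) →
      (∀ n < k, (Q (n + 1)).IsAbelianExtensionOf (Q n)) →
        2 ^ k * Nat.card (X 0) ≤ Nat.card (X k) ∧
        Nat.card (X k) ≤ (Nat.card (X 0))! ^ ((Nat.card (X 0))! ^ 3 + 2)) := by
  constructor
  · rintro ⟨X, Q, hc, h⟩
    set B := (Nat.card (X 0))! ^ ((Nat.card (X 0))! ^ 3 + 2) with hB
    have h1 := card_bound B X Q (fun n _ => hc n) (fun n _ => h n)
    have h2 := pow_card B X Q (fun n _ => hc n) (fun n _ => h n) B le_rfl
    have := (hc 0).1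
    have := (hc 0).2.1
    have h3 : 0 < Nat.card (X 0) := Nat.card_pos
    have h4 : B < 2 ^ B := Nat.lt_two_pow_self
    have h5 : 2 ^ B ≤ 2 ^ B * Nat.card (X 0) := Nat.le_mul_of_pos_right _ h3
    omega
  · intro k X Q hc h
    exact ⟨pow_card k X Q hc h k le_rfl, card_bound k X Q hc h⟩

end Pool.Agent.Results.MP_caf75b_al.NoInfiniteTower
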